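import Mathlib

/-! A hypercube lower bound valid for arbitrary decision rules. -/

namespace Pool.Agent.P.MP_faec4e_pr

open Set Filter Topology MeasureTheory
open scoped ENNReal

theorem pi_withDensity {X : Type*} [MeasurableSpace X] (μ : Measure X) [SigmaFinite μ] {f : X → ℝ}
    (h0 : ∀ x, 0 ≤ f x) (hi : Integrable f μ) (n : ℕ) :
    Measure.pi (fun _ : Fin n => μ.withDensity fun x => ENNReal.ofReal (f x)) =
      (Measure.pi fun _ : Fin n => μ).withDensity fun y => ENNReal.ofReal (∏ i, f (y i)) := by
  have : IsFiniteMeasure (μ.withDensity fun x => ENNReal.ofReal (f x)) :=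
    isFiniteMeasure_withDensity_ofReal hi.2
  refine Measure.pi_eq fun s hs => ?_
  rw [withDensity_apply _ (MeasurableSet.univ_pi hs), Measure.restrict_pi_pi,
    ← ofReal_integral_eq_lintegral_ofReal (Integrable.fintype_prod fun i => hi.restrict)
      (.of_forall fun y => Finset.prod_nonneg fun i _ => h0 _),
    integral_fintype_prod_eq_prod (fun _ => f),
    ENNReal.ofReal_prod_of_nonneg fun i _ => integral_nonneg h0]
  refine Finset.prod_congr rfl fun i _ => ?_
  rw [withDensity_apply _ (hs i), ofReal_integral_eq_lintegral_ofReal hi.restrict (.of_forall h0)]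

open Classical in
theorem assouad {Y κ : Type*} [MeasurableSpace Y] [Fintype κ] [Nonempty κ] (ν : Measure Y)
    {q : (κ → Bool) → Y → ℝ≥0∞} (hq : ∀ η, Measurable (q η))
    (h1 : ∀ η, ∫⁻ y, q η y ∂ν = 1) {A : κ → Set Y} (hA : ∀ j, MeasurableSet (A j))
    (hqA : ∀ η j, ∀ y ∈ A j, q (Function.update η j (!η j)) y = q η y)
    (hPA : ∀ η j, 1 / 2 ≤ ν.withDensity (q η) (A j)) {I : (κ → Bool) → κ → Y → Prop}
    (hI : ∀ η j y, I η j y ∨ I (Function.update η j (!η j)) j y) :
    ∃ η, 1 / 8 ≤ ν.withDensity (q η)
      {y | Fintype.card κ ≤ 8 * (Finset.univ.filter fun j => I η j y).card} := by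
  by_contra! hc
  set c : ℝ≥0∞ := (Fintype.card κ : ℝ≥0∞) with hcd
  have hc0 : c ≠ 0 := by simp [hcd]
  have hct : c ≠ ∞ := by simp [hcd]
  set F : (κ → Bool) → Set Y := fun η => toMeasurable (ν.withDensity (q η))
    {y | Fintype.card κ ≤ 8 * (Finset.univ.filter fun j => I η j y).card} with hF
  have hFm : ∀ η, MeasurableSet (F η) := fun η => measurableSet_toMeasurable _ _
  have key : ∀ y, ∑ j, ∑ η, (A j).indicator (q η) y ≤
      ∑ η, 2 * (c / 8 * q η y + c * (F η).indicator (q η) y) := by
    intro y
    calc _ ≤ ∑ j, ∑ η, 2 * (if I η j y then q η y else 0) := by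
          refine Finset.sum_le_sum fun j _ => ?_
          by_cases hy : y ∈ A j
          · have hinv : Function.Involutive fun η : κ → Bool => Function.update η j (!η j) :=
              fun η => by simp
            simp_rw [indicator_of_mem hy, two_mul, Finset.sum_add_distrib]
            conv_rhs => rhs; rw [← Equiv.sum_comp hinv.toPerm]
            rw [← Finset.sum_add_distrib]
            refine Finset.sum_le_sum fun η _ => ?_
            simp only [Function.Involutive.coe_toPerm, hqA η j y hy]
            rcases hI η j y with h | h <;> simp [h]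
          · simp [hy]
      _ = ∑ η, 2 * ((Finset.univ.filter fun j => I η j y).card * q η y) := by
          rw [Finset.sum_comm]
          refine Finset.sum_congr rfl fun η _ => ?_
          rw [← Finset.mul_sum, ← Finset.sum_filter, Finset.sum_const, nsmul_eq_mul]
      _ ≤ _ := by
          refine Finset.sum_le_sum fun η _ => mul_le_mul' le_rfl ?_
          by_cases hy : y ∈ F η
          · rw [indicator_of_mem hy]
            refine le_trans (mul_le_mul' ?_ le_rfl) le_add_self
            rw [hcd]
            exact_mod_cast Finset.card_le_univ _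
          · refine le_trans (mul_le_mul' ?_ le_rfl) le_self_add
            have : ¬ Fintype.card κ ≤ 8 * (Finset.univ.filter fun j => I η j y).card :=
              fun h => hy (subset_toMeasurable _ _ h)
            rw [ENNReal.le_div_iff_mul_le (by simp) (by simp), hcd, mul_comm]
            exact_mod_cast (not_le.1 this).le
  have h2 := lintegral_mono (μ := ν) key
  have hm1 : ∀ η, Measurable fun y => c / 8 * q η y + c * (F η).indicator (q η) y := fun η =>
    ((hq η).const_mul _).add (((hq η).indicator (hFm η)).const_mul _)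
  rw [lintegral_finsetSum _ fun j _ => Finset.measurable_sum _ fun η _ => (hq η).indicator (hA j),
    lintegral_finsetSum _ fun η _ => (hm1 η).const_mul 2] at h2
  have h3 : ∑ _η : κ → Bool, c / 2 ≤ ∑ j, ∫⁻ y, ∑ η, (A j).indicator (q η) y ∂ν := by
    calc _ = ∑ _j : κ, ∑ _η : κ → Bool, (1 / 2 : ℝ≥0∞) := by
          rw [Finset.sum_comm]
          simp [hcd, div_eq_mul_inv]
      _ ≤ _ := by
          refine Finset.sum_le_sum fun j _ => ?_
          rw [lintegral_finsetSum _ fun η _ => (hq η).indicator (hA j)]
          refine Finset.sum_le_sum fun η _ => ?_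
          rw [lintegral_indicator (hA j), ← withDensity_apply _ (hA j)]
          exact hPA η j
  refine absurd (h3.trans h2) (not_le.2 (ENNReal.sum_lt_sum_of_nonempty Finset.univ_nonempty
    fun η _ => ?_))
  rw [lintegral_const_mul _ (hm1 η),
    lintegral_add_left ((hq η).const_mul _), lintegral_const_mul _ (hq η), h1,
    lintegral_const_mul _ ((hq η).indicator (hFm η)), lintegral_indicator (hFm η),
    ← withDensity_apply _ (hFm η), hF, measure_toMeasurable]
  have h4 : c / 2 = 2 * (c / 8 * 1 + c * (1 / 8)) := by
    rw [mul_one, mul_one_div, ← two_mul, ← mul_assoc, div_eq_mul_inv, div_eq_mul_inv,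
      mul_left_comm]
    congr 1
    rw [show (8 : ℝ≥0∞) = 2 * 2 * 2 by norm_num, ENNReal.mul_inv (by simp) (by simp), ← mul_assoc,
      ENNReal.mul_inv_cancel (by simp) (by norm_num), one_mul]
  rw [h4]
  refine ENNReal.mul_lt_mul_right (by simp) (by simp) (ENNReal.add_lt_add_left ?_ ?_)
  · exact ENNReal.mul_ne_top (ENNReal.div_ne_top hct (by simp)) (by simp)
  · exact ENNReal.mul_lt_mul_right hc0 hct (hc η)

end Pool.Agent.P.MP_faec4e_pr
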