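import Pool.Agent.P.MP_faec4e_pr.Defs

/-! General facts on mixtures, and the measures carried by the vertices of a cube. -/

namespace Pool.Agent.P.MP_faec4e_pr

open Set Filter Topology MeasureTheory
open scoped ENNReal

noncomputable def lsmu {d : ℕ} (G : Measure (Fin d → ℝ)) (x : Fin d → ℝ) : ℝ≥0∞ :=
  ∫⁻ y, {y : Fin d → ℝ | ∀ i, 0 < x i ∧ x i ≤ y i}.indicator
    (fun y => ENNReal.ofReal (∏ i, y i)⁻¹) y ∂G

theorem measurable_ker {d : ℕ} : Measurable fun p : (Fin d → ℝ) × (Fin d → ℝ) =>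
    {y : Fin d → ℝ | ∀ i, 0 < p.1 i ∧ p.1 i ≤ y i}.indicator
      (fun y => ENNReal.ofReal (∏ i, y i)⁻¹) p.2 := by
  have : MeasurableSet {p : (Fin d → ℝ) × (Fin d → ℝ) | ∀ i, 0 < p.1 i ∧ p.1 i ≤ p.2 i} := by
    measurability
  exact Measurable.indicator (f := fun p : (Fin d → ℝ) × (Fin d → ℝ) =>
    ENNReal.ofReal (∏ i, p.2 i)⁻¹) (by fun_prop) this

theorem measurableSet_up {d : ℕ} (x : Fin d → ℝ) :
    MeasurableSet {y : Fin d → ℝ | ∀ i, 0 < x i ∧ x i ≤ y i} := by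
  measurability

theorem smu_eq {d : ℕ} (G : Measure (Fin d → ℝ)) (x : Fin d → ℝ) :
    smu G x = (lsmu G x).toReal := by
  rw [smu, lsmu, lintegral_indicator (measurableSet_up x), integral_eq_lintegral_of_nonneg_ae]
  · filter_upwards [ae_restrict_mem (measurableSet_up x)] with y hy
    exact inv_nonneg.2 (Finset.prod_nonneg fun i _ => ((hy i).1.trans_le (hy i).2).le)
  · exact Measurable.aestronglyMeasurable (by fun_prop)

theorem measurable_smu {d : ℕ} (G : Measure (Fin d → ℝ)) [SFinite G] : Measurable (smu G) := by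
  rw [funext (smu_eq G)]
  exact measurable_ker.lintegral_prod_right'.ennreal_toReal

theorem smu_nonneg {d : ℕ} (G : Measure (Fin d → ℝ)) (x : Fin d → ℝ) : 0 ≤ smu G x := by
  rw [smu_eq]
  exact ENNReal.toReal_nonneg

theorem lintegral_smu {d : ℕ} (G : Measure (Fin d → ℝ)) [IsProbabilityMeasure G]
    (h : ∀ᵐ y ∂G, ∀ i, 0 < y i) : ∫⁻ x, ENNReal.ofReal (smu G x) = 1 := by
  have h1 : ∫⁻ x, lsmu G x = 1 := by
    unfold lsmu
    rw [lintegral_lintegral_swap measurable_ker.aemeasurable, ← measure_univ (μ := G),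
      ← lintegral_one]
    refine lintegral_congr_ae (h.mono fun y hy => ?_)
    have : ∀ x : Fin d → ℝ, {y : Fin d → ℝ | ∀ i, 0 < x i ∧ x i ≤ y i}.indicator
        (fun y => ENNReal.ofReal (∏ i, y i)⁻¹) y =
        (univ.pi fun i => Ioc 0 (y i)).indicator (fun _ => ENNReal.ofReal (∏ i, y i)⁻¹) x :=
      fun x => by simp [indicator]
    have h2 : 0 < ∏ i, y i := Finset.prod_pos fun i _ => hy i
    simp only [this]
    rw [lintegral_indicator_const (MeasurableSet.univ_pi fun i => measurableSet_Ioc),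
      Real.volume_pi_Ioc, ← ENNReal.ofReal_prod_of_nonneg fun i _ => by simpa using (hy i).le,
      ← ENNReal.ofReal_mul (by positivity)]
    simp [inv_mul_cancel₀ h2.ne']
  rw [← h1]
  refine lintegral_congr_ae ?_
  filter_upwards [ae_lt_top (μ := volume) (f := lsmu G) measurable_ker.lintegral_prod_right'
    (by simp [h1])] with x hx
  rw [smu_eq, ENNReal.ofReal_toReal hx.ne]

theorem IsSMU.integrable {d : ℕ} {f : (Fin d → ℝ) → ℝ} (h : IsSMU f) : Integrable f := by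
  obtain ⟨G, hG, h, rfl⟩ := h
  exact ⟨(measurable_smu G).aestronglyMeasurable,
    (hasFiniteIntegral_iff_ofReal (.of_forall (smu_nonneg G))).2 (by simp [lintegral_smu G h])⟩

def vtx (c : Fin 3 → ℝ) (t : ℝ) (s : Bool × Bool × Bool) : Fin 3 → ℝ :=
  ![c 0 + if s.1 then t else 0, c 1 + if s.2.1 then t else 0, c 2 + if s.2.2 then t else 0]

def par (s : Bool × Bool × Bool) : Bool := xor s.1 (xor s.2.1 s.2.2)

noncomputable def bm (c : Fin 3 → ℝ) (t : ℝ) (e : Bool) : Measure (Fin 3 → ℝ) :=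
  ∑ s, (if par s = e then ENNReal.ofReal (∏ i, vtx c t s i) else 0) • Measure.dirac (vtx c t s)

def box (c : Fin 3 → ℝ) (t : ℝ) : Set (Fin 3 → ℝ) := univ.pi fun i => Ioc (c i) (c i + t)

theorem vtx_mem {c : Fin 3 → ℝ} {t : ℝ} (ht : 0 ≤ t) (s : Bool × Bool × Bool) (i : Fin 3) :
    c i ≤ vtx c t s i ∧ vtx c t s i ≤ c i + t := by
  fin_cases i <;> simp [vtx] <;> split_ifs <;> simp [ht]

theorem lintegral_bm (c : Fin 3 → ℝ) (t : ℝ) (e : Bool) (φ : (Fin 3 → ℝ) → ℝ≥0∞) :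
    ∫⁻ y, φ y ∂bm c t e =
      ∑ s, (if par s = e then ENNReal.ofReal (∏ i, vtx c t s i) else 0) * φ (vtx c t s) := by
  simp only [bm, lintegral_finsetSum_measure, lintegral_smul_measure, lintegral_dirac, smul_eq_mul]

open Classical in
theorem lsmu_bm {c : Fin 3 → ℝ} {t : ℝ} (hc : ∀ i, 0 < c i) (ht : 0 ≤ t) (e : Bool)
    (x : Fin 3 → ℝ) : lsmu (bm c t e) x =
      ∑ s, if par s = e ∧ ∀ i, 0 < x i ∧ x i ≤ vtx c t s i then 1 else 0 := by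
  rw [lsmu, lintegral_bm]
  refine Finset.sum_congr rfl fun s _ => ?_
  have h : 0 < ∏ i, vtx c t s i := Finset.prod_pos fun i _ => (hc i).trans_le (vtx_mem ht s i).1
  by_cases h1 : par s = e <;> by_cases h2 : ∀ i, 0 < x i ∧ x i ≤ vtx c t s i
  · rw [if_pos h1, if_pos ⟨h1, h2⟩, indicator_of_mem (by exact h2), ← ENNReal.ofReal_mul h.le,
      mul_inv_cancel₀ h.ne', ENNReal.ofReal_one]
  · rw [indicator_of_notMem (by exact h2), mul_zero, if_neg fun h => h2 h.2]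
  · simp [h1]
  · simp [h1]

open Classical in
theorem lsmu_bm' {c : Fin 3 → ℝ} {t : ℝ} (hc : ∀ i, 0 < c i) (ht : 0 ≤ t) {x : Fin 3 → ℝ}
    (h0 : ∀ i, 0 < x i) :
    lsmu (bm c t true) x =
      (if x 0 ≤ c 0 + t ∧ x 1 ≤ c 1 + t ∧ x 2 ≤ c 2 + t then 1 else 0) +
      (if x 0 ≤ c 0 + t ∧ x 1 ≤ c 1 ∧ x 2 ≤ c 2 then 1 else 0) +
      ((if x 0 ≤ c 0 ∧ x 1 ≤ c 1 + t ∧ x 2 ≤ c 2 then 1 else 0) +
      (if x 0 ≤ c 0 ∧ x 1 ≤ c 1 ∧ x 2 ≤ c 2 + t then 1 else 0)) ∧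
    lsmu (bm c t false) x =
      (if x 0 ≤ c 0 + t ∧ x 1 ≤ c 1 + t ∧ x 2 ≤ c 2 then 1 else 0) +
      (if x 0 ≤ c 0 + t ∧ x 1 ≤ c 1 ∧ x 2 ≤ c 2 + t then 1 else 0) +
      ((if x 0 ≤ c 0 ∧ x 1 ≤ c 1 + t ∧ x 2 ≤ c 2 + t then 1 else 0) +
      (if x 0 ≤ c 0 ∧ x 1 ≤ c 1 ∧ x 2 ≤ c 2 then 1 else 0)) := by
  rw [lsmu_bm hc ht, lsmu_bm hc ht]
  simp only [Fintype.sum_prod_type, Fintype.sum_bool]
  simp [par, vtx, Fin.forall_fin_succ, h0]

theorem lsmu_bm_of_mem {c : Fin 3 → ℝ} {t : ℝ} (hc : ∀ i, 0 < c i) (ht : 0 ≤ t) (e : Bool)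
    {x : Fin 3 → ℝ} (hx : x ∈ box c t) : lsmu (bm c t e) x = if e = true then 1 else 0 := by
  have h := fun i => hx i (mem_univ i)
  have h0 := lsmu_bm' hc ht fun i => (hc i).trans (h i).1
  have h1 := fun i => not_le.2 (h i).1
  have h2 := fun i => (h i).2
  cases e
  · simp only [h0.2, h1, h2]
    simp
  · simp only [h0.1, h1, h2]
    simp

theorem cube_aux {p0 p1 p2 q0 q1 q2 : Prop} [Decidable p0] [Decidable p1] [Decidable p2]
    [Decidable q0] [Decidable q1] [Decidable q2] (h : ¬((¬p0 ∧ q0) ∧ (¬p1 ∧ q1) ∧ ¬p2 ∧ q2))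
    (a0 : p0 → q0) (a1 : p1 → q1) (a2 : p2 → q2) :
    ((if q0 ∧ q1 ∧ q2 then 1 else 0) + if q0 ∧ p1 ∧ p2 then 1 else 0) +
      ((if p0 ∧ q1 ∧ p2 then 1 else 0) + if p0 ∧ p1 ∧ q2 then 1 else 0) =
    ((if q0 ∧ q1 ∧ p2 then 1 else 0) + if q0 ∧ p1 ∧ q2 then (1 : ℝ≥0∞) else 0) +
      ((if p0 ∧ q1 ∧ q2 then 1 else 0) + if p0 ∧ p1 ∧ p2 then 1 else 0) := by
  by_cases b0 : p0 <;> by_cases b1 : p1 <;> by_cases b2 : p2 <;> by_cases d0 : q0 <;>
    by_cases d1 : q1 <;> by_cases d2 : q2 <;> simp_all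

theorem lsmu_bm_of_notMem {c : Fin 3 → ℝ} {t : ℝ} (hc : ∀ i, 0 < c i) (ht : 0 ≤ t) (e e' : Bool)
    {x : Fin 3 → ℝ} (hx : x ∉ box c t) : lsmu (bm c t e) x = lsmu (bm c t e') x := by
  have key : lsmu (bm c t true) x = lsmu (bm c t false) x := by
    by_cases h0 : ∀ i, 0 < x i
    swap
    · rw [lsmu_bm hc ht, lsmu_bm hc ht,
        Finset.sum_eq_zero fun s _ => if_neg fun h => h0 fun i => (h.2 i).1,
        Finset.sum_eq_zero fun s _ => if_neg fun h => h0 fun i => (h.2 i).1]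
    rw [(lsmu_bm' hc ht h0).1, (lsmu_bm' hc ht h0).2]
    have h1 : ∀ i, x i ≤ c i → x i ≤ c i + t := fun i h => by linarith
    have h2 : ¬ ((¬ x 0 ≤ c 0 ∧ x 0 ≤ c 0 + t) ∧ (¬ x 1 ≤ c 1 ∧ x 1 ≤ c 1 + t) ∧
        ¬ x 2 ≤ c 2 ∧ x 2 ≤ c 2 + t) := fun h => hx fun i _ => by
      fin_cases i
      exacts [⟨not_le.1 h.1.1, h.1.2⟩, ⟨not_le.1 h.2.1.1, h.2.1.2⟩, ⟨not_le.1 h.2.2.1, h.2.2.2⟩]
    exact cube_aux h2 (h1 0) (h1 1) (h1 2)
  cases e <;> cases e' <;> simp [key]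

theorem lsmu_bm_zero {c : Fin 3 → ℝ} {t : ℝ} (hc : ∀ i, 0 < c i) (ht : 0 ≤ t) (e : Bool)
    {x : Fin 3 → ℝ} (hx : ¬ ∀ i, x i ≤ c i + t) : lsmu (bm c t e) x = 0 := by
  rw [lsmu_bm hc ht]
  exact Finset.sum_eq_zero fun s _ => if_neg fun h => hx fun i =>
    (h.2 i).2.trans (vtx_mem ht s i).2

theorem bm_univ {c : Fin 3 → ℝ} {t : ℝ} (hc : ∀ i, 0 < c i) (ht : 0 ≤ t) :
    bm c t true univ = bm c t false univ + ENNReal.ofReal (t ^ 3) := by
  have h0 := hc 0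
  have h1 := hc 1
  have h2 := hc 2
  rw [← lintegral_one, ← lintegral_one, lintegral_bm, lintegral_bm]
  simp only [Fintype.sum_prod_type, par, vtx, Fin.prod_univ_three, Fintype.sum_bool]
  simp
  repeat rw [← ENNReal.ofReal_add (by positivity) (by positivity)]
  congr 1
  ring

theorem bm_le {c : Fin 3 → ℝ} {t : ℝ} (hc : ∀ i, 0 < c i) (ht : 0 ≤ t) (h2 : ∀ i, c i + t ≤ 2)
    (e : Bool) : bm c t e univ ≤ 64 := by
  rw [← lintegral_one, lintegral_bm]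
  refine (Finset.sum_le_card_nsmul _ _ 8 fun s _ => ?_).trans (by simp; norm_num)
  split_ifs
  · rw [mul_one, ENNReal.ofReal_le_ofNat]
    refine (Finset.prod_le_prod (fun i _ => ((hc i).trans_le (vtx_mem ht s i).1).le)
      fun i _ => (vtx_mem ht s i).2.trans (h2 i)).trans (by simp; norm_num)
  · simp

theorem bm_ae {c : Fin 3 → ℝ} {t : ℝ} (ht : 0 ≤ t) (e : Bool) {a b : ℝ} (h1 : ∀ i, a ≤ c i)
    (h2 : ∀ i, c i + t ≤ b) : ∀ᵐ y ∂bm c t e, ∀ i, a ≤ y i ∧ y i ≤ b := by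
  rw [bm, ae_finsetSum_measure_iff]
  refine fun s _ => Measure.ae_smul_measure ?_ _
  rw [ae_dirac_eq]
  exact fun i => ⟨(h1 i).trans (vtx_mem ht s i).1, (vtx_mem ht s i).2.trans (h2 i)⟩

end Pool.Agent.P.MP_faec4e_pr
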