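import Pool.Agent.P.MP_faec4e_pr.Assouad

/-! A multiscale lower bound at one fixed density. -/

namespace Pool.Agent.P.MP_faec4e_pr

open Set Filter Topology MeasureTheory
open scoped ENNReal

variable {X : Type*} [MeasurableSpace X]

theorem pi_hit (P : Measure X) [IsProbabilityMeasure P] (n : ℕ) {S : Set X}
    (hS : MeasurableSet S) :
    Measure.pi (fun _ : Fin n => P) {y | ∀ i, y i ∉ S}ᶜ ≤ n * P S := by
  have : {y : Fin n → X | ∀ i, y i ∉ S}ᶜ = ⋃ i, (fun y => y i) ⁻¹' S := by
    ext y
    simp
  rw [this]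
  refine (measure_iUnion_fintype_le _ _).trans (le_of_eq ?_)
  rw [Finset.sum_congr rfl fun i _ =>
    (measurePreserving_eval (fun _ : Fin n => P) i).measure_preimage hS.nullMeasurableSet]
  simp

theorem integrable_sq {μ : Measure X} {f g : X → ℝ} (hf : Integrable f μ) (hg : Integrable g μ) :
    Integrable (fun x => (√(g x) - √(f x)) ^ 2) μ := by
  refine Integrable.mono' (hg.norm.add hf.norm) ?_ (.of_forall fun x => ?_)
  · exact ((Real.continuous_sqrt.comp_aestronglyMeasurable hg.1).sub
      (Real.continuous_sqrt.comp_aestronglyMeasurable hf.1)).pow 2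
  · have h1 : ∀ a : ℝ, √a ^ 2 ≤ ‖a‖ := fun a => by
      rw [Real.sq_sqrt', Real.norm_eq_abs]
      exact max_le (le_abs_self a) (abs_nonneg a)
    rw [Real.norm_of_nonneg (sq_nonneg _), Pi.add_apply]
    nlinarith [h1 (g x), h1 (f x), mul_nonneg (Real.sqrt_nonneg (g x)) (Real.sqrt_nonneg (f x))]

theorem multi (μ : Measure X) [SigmaFinite μ] {κ : ℕ → Type} [∀ k, Fintype (κ k)]
    [∀ k, Nonempty (κ k)] {f : (∀ k, κ k → Bool) → X → ℝ} (hm : ∀ θ, Measurable (f θ))
    (h0 : ∀ θ x, 0 ≤ f θ x) (h1 : ∀ θ, ∫⁻ x, ENNReal.ofReal (f θ x) ∂μ = 1)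
    {B : ∀ k, κ k → Bool → Set X} (hB : ∀ k j b, MeasurableSet (B k j b))
    (hdisj : ∀ k, Pairwise (Function.onFun Disjoint fun j => B k j true)) {w τ : ℕ → ℝ}
    (hw : ∀ k, 0 ≤ w k) (hτ0 : ∀ k, 0 ≤ τ k) (hτ : ∀ k j b, μ (B k j b) = ENNReal.ofReal (τ k))
    (hf : ∀ θ k j b, ∀ x ∈ B k j b, f θ x = if θ k j = b then w k else 0)
    (hloc : ∀ θ θ' x, (∀ k j, θ k j ≠ θ' k j → ∀ b, x ∉ B k j b) → f θ x = f θ' x)
    {n : ℕ → ℕ} (hn : ∀ k, n k * (w k * τ k) ≤ 1 / 2)
    (hsp : ∀ k l, k < l → n k * (Fintype.card (κ l) * (w l * τ l)) ≤ (1 / 2) ^ (l + 5))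
    {g : ∀ m, (Fin m → X) → X → ℝ} (hg : ∀ m y, Integrable (g m y) μ) :
    ∃ θ, ∀ k, 1 / 16 ≤
      Measure.pi (fun _ : Fin (n k) => μ.withDensity fun x => ENNReal.ofReal (f θ x))
        {y | Fintype.card (κ k) * (w k * τ k) / 32 ≤ ∫ x, (√(g (n k) y x) - √(f θ x)) ^ 2 ∂μ} := by
  classical
  set P : (∀ k, κ k → Bool) → Measure X := fun θ => μ.withDensity fun x => ENNReal.ofReal (f θ x)
    with hP
  have hPp : ∀ θ, IsProbabilityMeasure (P θ) := fun θ => ⟨by simp [hP, h1]⟩
  have hi : ∀ θ, Integrable (f θ) μ := fun θ =>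
    ⟨(hm θ).aestronglyMeasurable, (hasFiniteIntegral_iff_ofReal (.of_forall (h0 θ))).2 (by
      simp [h1])⟩
  have hPB : ∀ θ k j, P θ (B k j true ∪ B k j false) ≤ ENNReal.ofReal (w k * τ k) := by
    intro θ k j
    have : ∀ b, P θ (B k j b) = if θ k j = b then ENNReal.ofReal (w k * τ k) else 0 := fun b => by
      rw [hP, withDensity_apply _ (hB k j b),
        setLIntegral_congr_fun (hB k j b) fun x hx => by rw [hf θ k j b x hx],
        setLIntegral_const, hτ]
      split_ifs
      · rw [ENNReal.ofReal_mul (hw k)]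
      · simp
    refine (measure_union_le _ _).trans ?_
    rw [this, this]
    cases θ k j <;> simp
  have hres : ∀ θ θ' m (S : Set X), MeasurableSet S →
      (∀ k j, θ k j ≠ θ' k j → ∀ b, B k j b ⊆ S) → ∀ y ∈ {y : Fin m → X | ∀ i, y i ∉ S},
      ENNReal.ofReal (∏ i, f θ (y i)) = ENNReal.ofReal (∏ i, f θ' (y i)) := by
    intro θ θ' m S _ h y hy
    rw [Finset.prod_congr rfl fun i _ => hloc θ θ' (y i) fun k j hj b hb => hy i (h k j hj b hb)]
  have hAm : ∀ m (S : Set X), MeasurableSet S → MeasurableSet {y : Fin m → X | ∀ i, y i ∉ S} :=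
    fun m S hS => by
      simp only [ofPred_forall]
      exact MeasurableSet.iInter fun i => (measurable_pi_apply i hS).compl
  set I : ∀ k, (κ k → Bool) → κ k → (Fin (n k) → X) → Prop := fun k η j y => w k * τ k / 4 ≤
    ∫ x in B k j true, (√(g (n k) y x) - √(if η j = true then w k else 0)) ^ 2 ∂μ with hI
  set E : ∀ k, (κ k → Bool) → Set (Fin (n k) → X) := fun k η =>
    {y | Fintype.card (κ k) ≤ 8 * (Finset.univ.filter fun j => I k η j y).card} with hE
  have hfin : ∀ k j b, IsFiniteMeasure (μ.restrict (B k j b)) := fun k j b => ⟨by simp [hτ]⟩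
  have step : ∀ k (θ : ∀ k, κ k → Bool), ∃ η : κ k → Bool,
      1 / 8 ≤ Measure.pi (fun _ : Fin (n k) => P (Function.update θ k η)) (E k η) := by
    intro k θ
    simp only [hP, fun η => pi_withDensity μ (h0 (Function.update θ k η)) (hi _) (n k)]
    refine assouad _ (fun η => ?_) (fun η => ?_)
      (A := fun j => {y | ∀ i, y i ∉ B k j true ∪ B k j false})
      (fun j => hAm _ _ ((hB _ _ _).union (hB _ _ _))) (fun η j => ?_) (fun η j => ?_)
      fun η j y => ?_
    · have := hm (Function.update θ k η)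
      fun_prop
    · have := hPp (Function.update θ k η)
      rw [← setLIntegral_univ, ← withDensity_apply _ MeasurableSet.univ,
        ← pi_withDensity μ (h0 _) (hi _)]
      exact measure_univ
    · refine hres _ _ _ _ ((hB _ _ _).union (hB _ _ _)) fun l j' hj b => ?_
      by_cases hl : l = k
      · subst hl
        by_cases hj' : j' = j
        · subst hj'
          cases b
          · exact subset_union_right
          · exact subset_union_left
        · simp [hj'] at hj
      · simp [hl] at hj
    · have := hPp (Function.update θ k η)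
      rw [← pi_withDensity μ (h0 _) (hi _)]
      have h2 := (pi_hit (P (Function.update θ k η)) (n k)
        ((hB k j true).union (hB k j false))).trans (mul_le_mul' le_rfl (hPB _ k j))
      rw [← ENNReal.ofReal_natCast, ← ENNReal.ofReal_mul (by positivity),
        prob_compl_eq_one_sub (hAm _ _ ((hB _ _ _).union (hB _ _ _)))] at h2
      have h3 := h2.trans (ENNReal.ofReal_le_ofReal (hn k))
      rw [tsub_le_iff_tsub_le, ENNReal.ofReal_div_of_pos two_pos] at h3
      simpa using h3
    · have := hfin k j true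
      have a1 := integrable_sq (integrable_const (μ := μ.restrict (B k j true)) (w k))
        (hg (n k) y).restrict
      have a2 := integrable_sq (integrable_const (μ := μ.restrict (B k j true)) 0)
        (hg (n k) y).restrict
      have a3 : w k * τ k / 2 ≤ ∫ x in B k j true, (√(g (n k) y x) - √(w k)) ^ 2 ∂μ +
          ∫ x in B k j true, (√(g (n k) y x) - √0) ^ 2 ∂μ := by
        rw [← integral_add a1 a2]
        refine le_trans (le_of_eq ?_) (integral_mono (integrable_const (w k / 2)) (a1.add a2)
          fun x => ?_)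
        · rw [setIntegral_const, measureReal_def, hτ, ENNReal.toReal_ofReal (hτ0 k), smul_eq_mul]
          ring
        · simp only [Real.sqrt_zero, sub_zero]
          nlinarith [Real.sq_sqrt (hw k), sq_nonneg (2 * √(g (n k) y x) - √(w k))]
      by_contra hc
      simp only [hI, Function.update_self, not_or, not_le] at hc
      cases h : η j <;> simp only [h, Bool.not_true, Bool.not_false, if_true, Bool.false_eq_true,
        if_false] at hc <;> linarith [hc.1, hc.2]
  choose F hF using step
  set s : ℕ → ∀ k, κ k → Bool := fun m =>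
    Nat.rec (fun _ _ => true) (fun k θ => Function.update θ k (F k θ)) m with hs
  have hs1 : ∀ m, s (m + 1) = Function.update (s m) m (F m (s m)) := fun m => rfl
  have hs2 : ∀ k l, l ≤ k → s (k + 1) l = s (l + 1) l := by
    intro k l hl
    induction k, hl using Nat.le_induction with
    | base => rfl
    | succ k hk ih => rw [hs1 (k + 1), Function.update_of_ne (by omega), ih]
  set θ : ∀ k, κ k → Bool := fun l => s (l + 1) l with hθ
  refine ⟨θ, fun k => ?_⟩
  have hθk : θ k = F k (s k) := by simp [hθ, hs1]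
  have h2 : E k (θ k) ⊆ {y | Fintype.card (κ k) * (w k * τ k) / 32 ≤
      ∫ x, (√(g (n k) y x) - √(f θ x)) ^ 2 ∂μ} := by
    intro y hy
    have a1 := integrable_sq (hi θ) (hg (n k) y)
    have a2 : (Fintype.card (κ k) : ℝ) ≤
        8 * (Finset.univ.filter fun j => I k (θ k) j y).card := by exact_mod_cast hy
    set T := Finset.univ.filter fun j => I k (θ k) j y with hT
    have := mul_nonneg (hw k) (hτ0 k)
    calc _ ≤ ∑ _j ∈ T, w k * τ k / 4 := by
          rw [Finset.sum_const, nsmul_eq_mul]
          nlinarith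
      _ ≤ ∑ j ∈ T, ∫ x in B k j true, (√(g (n k) y x) - √(f θ x)) ^ 2 ∂μ := by
          refine Finset.sum_le_sum fun j hj => ((Finset.mem_filter.1 hj).2).trans (le_of_eq ?_)
          exact setIntegral_congr_fun (hB _ _ _) fun x hx => by rw [hf θ k j true x hx]
      _ ≤ _ := by
          rw [← integral_biUnion_finset T (fun j _ => hB k j true)
            (fun i _ j _ hij => hdisj k hij) fun j _ => a1.integrableOn]
          exact setIntegral_le_integral a1 (.of_forall fun x => sq_nonneg _)
  refine le_trans ?_ (measure_mono h2)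
  set S : Set X := ⋃ l, ⋃ _ : k < l, ⋃ j, (B l j true ∪ B l j false) with hS
  have hSm : MeasurableSet S := .iUnion fun l => .iUnion fun _ => .iUnion fun j =>
    (hB _ _ _).union (hB _ _ _)
  set R := {y : Fin (n k) → X | ∀ i, y i ∉ S} with hR
  have h3 : Measure.pi (fun _ : Fin (n k) => P (s (k + 1))) (E k (θ k) ∩ R) =
      Measure.pi (fun _ : Fin (n k) => P θ) (E k (θ k) ∩ R) := by
    rw [← Measure.restrict_apply' (hAm _ _ hSm), ← Measure.restrict_apply' (hAm _ _ hSm)]
    simp only [hP]
    rw [pi_withDensity μ (h0 _) (hi _), pi_withDensity μ (h0 _) (hi _),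
      restrict_withDensity (hAm _ _ hSm), restrict_withDensity (hAm _ _ hSm),
      withDensity_congr_ae ((ae_restrict_mem (hAm _ _ hSm)).mono (hres _ θ _ S hSm ?_))]
    intro l j hj b x hx
    have hl : k < l := by
      by_contra! h
      exact hj (by rw [hs2 k l h])
    simp only [hS, mem_iUnion]
    refine ⟨l, hl, j, ?_⟩
    cases b
    · exact Or.inr hx
    · exact Or.inl hx
  have h4 : Measure.pi (fun _ : Fin (n k) => P (s (k + 1))) Rᶜ ≤ 1 / 16 := by
    have := hPp (s (k + 1))
    refine (pi_hit _ _ hSm).trans ((mul_le_mul' le_rfl (measure_iUnion_le _)).trans ?_)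
    rw [← ENNReal.tsum_mul_left]
    calc _ ≤ ∑' l : ℕ, (2⁻¹ : ℝ≥0∞) ^ 5 * 2⁻¹ ^ l := by
          refine ENNReal.tsum_le_tsum fun l => ?_
          by_cases hl : k < l
          · simp only [hl, iUnion_true]
            refine (mul_le_mul' le_rfl ((measure_iUnion_fintype_le _ _).trans
              (Finset.sum_le_sum fun j _ => hPB _ l j))).trans ?_
            have := mul_nonneg (hw l) (hτ0 l)
            rw [Finset.sum_const, nsmul_eq_mul, Finset.card_univ, ← ENNReal.ofReal_natCast,
              ← ENNReal.ofReal_natCast, ← ENNReal.ofReal_mul (by positivity),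
              ← ENNReal.ofReal_mul (by positivity), ← pow_add, add_comm]
            refine (ENNReal.ofReal_le_ofReal (hsp k l hl)).trans (le_of_eq ?_)
            rw [ENNReal.ofReal_pow (by norm_num), one_div, ENNReal.ofReal_inv_of_pos two_pos]
            simp
          · simp [hl]
      _ = 1 / 16 := by
          rw [ENNReal.tsum_mul_left, ENNReal.tsum_geometric, ENNReal.one_sub_inv_two, inv_inv,
            pow_succ, mul_assoc, ENNReal.inv_mul_cancel (by simp) (by simp), mul_one,
            ← ENNReal.inv_pow]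
          norm_num
  have h5 := hF k (s k)
  rw [← hs1, ← hθk] at h5
  have h6 := (h5.trans (measure_le_inter_add_sdiff _ _ R)).trans
    (add_le_add (h3.trans_le (measure_mono inter_subset_left))
      ((measure_mono (sdiff_subset_compl _ _)).trans h4))
  have h7 : (1 / 8 : ℝ≥0∞) = 1 / 16 + 1 / 16 := by
    rw [ENNReal.div_add_div_same, ENNReal.div_eq_div_iff (by simp) (by simp) (by simp) (by simp)]
    norm_num
  rwa [h7, ENNReal.add_le_add_iff_right (by simp)] at h6

end Pool.Agent.P.MP_faec4e_pr
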