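import Pool.Agent.P.MP_faec4e_pr.Box
import Pool.Agent.P.MP_faec4e_pr.Multi

/-! The multiscale antichain of cubes. -/

namespace Pool.Agent.P.MP_faec4e_pr

open Set Filter Topology MeasureTheory
open scoped ENNReal

def LL (k : ℕ) : ℕ := 2 ^ 2 ^ (k + 3)

theorem LL_ge (k : ℕ) : (2 : ℝ) ^ (k + 8) ≤ LL k := by
  have : k + 8 ≤ 2 ^ (k + 3) := by
    have := k.lt_two_pow_self
    rw [pow_add]
    omega
  rw [LL]
  push_cast
  exact pow_le_pow_right₀ one_le_two this

theorem LL_big (k : ℕ) : (256 : ℝ) ≤ LL k :=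
  le_trans (by rw [pow_add]; nlinarith [one_le_pow₀ (n := k) (one_le_two (α := ℝ))]) (LL_ge k)

theorem LL_sq {k l : ℕ} (h : k < l) : (LL k : ℝ) ^ 2 ≤ LL l := by
  rw [LL, LL]
  push_cast
  rw [← pow_mul, ← pow_succ]
  exact pow_le_pow_right₀ one_le_two (Nat.pow_le_pow_right two_pos (by omega))

abbrev κ (k : ℕ) : Type := Fin (LL k ^ 10) × Fin (LL k ^ 10)

instance (k : ℕ) : Nonempty (κ k) :=
  have : 0 < LL k ^ 10 := by unfold LL; positivity
  ⟨(⟨0, this⟩, ⟨0, this⟩)⟩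

noncomputable def tt (k : ℕ) : ℝ := 1 / (8 * (LL k : ℝ) ^ 11)

noncomputable def ww (k : ℕ) : ℝ := 1 / (LL k : ℝ) ^ 21

noncomputable def cc (k : ℕ) (p : κ k) (b : Bool) : Fin 3 → ℝ :=
  ![1 + 1 / LL k + 2 * tt k * p.1, 1 + 2 * tt k * (2 * p.2 + b.toNat : ℕ),
    3 - (1 + 1 / LL k + 2 * tt k * p.1) - (1 + 2 * tt k * (2 * p.2 + b.toNat : ℕ))]

theorem tt_pos (k : ℕ) : 0 < tt k := by
  have := LL_big k
  unfold tt
  positivity

theorem tt_mul (k : ℕ) (i : Fin (LL k ^ 10)) : tt k * (i + 1) ≤ 1 / LL k / 8 := by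
  have := LL_big k
  have h : (i : ℝ) + 1 ≤ (LL k : ℝ) ^ 10 := by exact_mod_cast i.2
  refine (mul_le_mul_of_nonneg_left h (tt_pos k).le).trans (le_of_eq ?_)
  unfold tt
  field_simp

theorem cc_bd (k : ℕ) (p : κ k) (b : Bool) :
    1 + 1 / LL k ≤ cc k p b 0 ∧ cc k p b 0 + 2 * tt k ≤ 1 + 5 / 4 * (1 / LL k) ∧
      (∀ i, 1 / 2 ≤ cc k p b i) ∧ ∀ i, cc k p b i + tt k ≤ 2 := by
  have h0 := tt_pos k
  have h1 := tt_mul k p.1
  have h2 := tt_mul k p.2
  have h3 : 1 / (LL k : ℝ) ≤ 1 / 256 := one_div_le_one_div_of_le (by norm_num) (LL_big k)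
  have h4 : 0 ≤ tt k * p.1 := by positivity
  have h5 : 0 ≤ tt k * p.2 := by positivity
  have h6 : 0 ≤ 1 / (LL k : ℝ) := by positivity
  generalize hu : 1 / (LL k : ℝ) = u at *
  refine ⟨?_, ?_, fun i => ?_, fun i => ?_⟩
  · simp only [cc, hu, Matrix.cons_val_zero]
    linarith
  · simp only [cc, hu, Matrix.cons_val_zero]
    linarith
  · fin_cases i <;> cases b <;> simp [cc, -one_div, hu] <;> linarith
  · fin_cases i <;> cases b <;> simp [cc, -one_div, hu] <;> linarith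

theorem cc_pos (k : ℕ) (p : κ k) (b : Bool) (i : Fin 3) : 0 < cc k p b i :=
  lt_of_lt_of_le (by norm_num) ((cc_bd k p b).2.2.1 i)

theorem sep {k l : ℕ} {p : κ k} {q : κ l} {b b' : Bool} {x : Fin 3 → ℝ}
    (hx : x ∈ box (cc k p b) (tt k)) (h : ∀ i, x i ≤ cc l q b' i + tt l) :
    (⟨k, p, b⟩ : Σ k, κ k × Bool) = ⟨l, q, b'⟩ := by
  have h0 := (hx 0 (mem_univ _)).1.trans_le (h 0)
  have h1 := (hx 1 (mem_univ _)).1.trans_le (h 1)
  have h2 := (hx 2 (mem_univ _)).1.trans_le (h 2)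
  have e1 : cc k p b 2 = 3 - cc k p b 0 - cc k p b 1 := rfl
  have e2 : cc l q b' 2 = 3 - cc l q b' 0 - cc l q b' 1 := rfl
  have a := cc_bd k p b
  have a' := cc_bd l q b'
  have hsq : ∀ {k l}, k < l → 1 / (LL l : ℝ) ≤ 1 / 2 * (1 / LL k) := fun {k l} h => by
    have := LL_big k
    rw [one_div_mul_one_div]
    exact one_div_le_one_div_of_le (by positivity) (by nlinarith [LL_sq h])
  have t0 := tt_pos k
  have t1 := tt_pos l
  obtain rfl : k = l := by
    have := tt_mul l q.1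
    have : 0 ≤ tt l * q.1 := by positivity
    have : 0 < 1 / (LL k : ℝ) := by have := LL_big k; positivity
    rcases lt_trichotomy k l with h | h | h
    · linarith [hsq h, a.1, a'.2.1]
    · exact h
    · linarith [hsq h, a'.1, a.2.1]
  have key : ∀ m n : ℕ, 2 * tt k * m < 2 * tt k * n + 2 * tt k → m ≤ n := fun m n h => by
    have : (m : ℝ) < n + 1 := by nlinarith
    exact Nat.lt_succ_iff.1 (by exact_mod_cast this)
  rw [e1, e2] at h2
  simp only [cc, Matrix.cons_val_zero, Matrix.cons_val_one] at h0 h1 h2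
  have b1 : (p.1 : ℕ) = q.1 := le_antisymm (key _ _ (by linarith)) (key _ _ (by linarith))
  have b2 : 2 * p.2 + b.toNat = 2 * q.2 + b'.toNat :=
    le_antisymm (key _ _ (by linarith)) (key _ _ (by linarith))
  have b3 : (p.2 : ℕ) = q.2 ∧ b = b' := by
    cases b <;> cases b' <;> simp at b2 ⊢ <;> omega
  rw [Prod.ext (Fin.ext b1) (Fin.ext b3.1), b3.2]

noncomputable def Gam (θ : ∀ k, κ k → Bool) : Measure (Fin 3 → ℝ) :=
  Measure.sum fun a : Σ k, κ k × Bool =>
    ENNReal.ofReal (ww a.1) • bm (cc a.1 a.2.1 a.2.2) (tt a.1) (θ a.1 a.2.1 == a.2.2)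

noncomputable def GG (θ : ∀ k, κ k → Bool) : Measure (Fin 3 → ℝ) :=
  Gam θ + (1 - Gam (fun _ _ => true) univ) • Measure.dirac fun _ => 1 / 2

theorem Gam_univ (θ : ∀ k, κ k → Bool) : Gam θ univ = Gam (fun _ _ => true) univ := by
  simp only [Gam, Measure.sum_apply _ MeasurableSet.univ, ENNReal.tsum_sigma', tsum_fintype,
    Fintype.sum_prod_type (α₂ := Bool), Fintype.sum_bool, Measure.smul_apply, smul_eq_mul]
  congr! 3 with k p
  cases θ k p
  · simp only [beq_true, beq_false, Bool.not_false, Bool.not_true, ← mul_add]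
    rw [bm_univ (cc_pos k p true) (tt_pos k).le, bm_univ (cc_pos k p false) (tt_pos k).le]
    congr 1
    ring
  · rfl

theorem Gam_le (θ : ∀ k, κ k → Bool) : Gam θ univ ≤ 1 := by
  simp only [Gam, Measure.sum_apply _ MeasurableSet.univ, ENNReal.tsum_sigma', tsum_fintype,
    Measure.smul_apply, smul_eq_mul]
  calc _ ≤ ∑' k : ℕ, (2⁻¹ : ℝ≥0∞) * 2⁻¹ ^ k := by
        refine ENNReal.tsum_le_tsum fun k => ?_
        refine (Finset.sum_le_card_nsmul _ _ (ENNReal.ofReal (ww k) * 64) fun a _ =>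
          mul_le_mul' le_rfl (bm_le (cc_pos _ _ _) (tt_pos k).le (cc_bd _ _ _).2.2.2 _)).trans ?_
        have h1 := LL_big k
        have h2 : ((Finset.univ : Finset (κ k × Bool)).card : ℝ) * (ww k * 64) ≤ 2⁻¹ * 2⁻¹ ^ k := by
          have := LL_ge k
          simp only [Finset.card_univ, Fintype.card_prod, Fintype.card_fin, Fintype.card_bool, ww]
          push_cast
          rw [inv_pow]
          field_simp
          rw [pow_add] at this
          linarith
        have h3 : 0 ≤ ww k := by unfold ww; positivity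
        have h4 := ENNReal.ofReal_le_ofReal h2
        rw [ENNReal.ofReal_mul (by positivity), ENNReal.ofReal_mul h3,
          ENNReal.ofReal_mul (by positivity), ENNReal.ofReal_pow (by positivity),
          ENNReal.ofReal_inv_of_pos two_pos, ENNReal.ofReal_natCast, ENNReal.ofReal_ofNat,
          ENNReal.ofReal_ofNat] at h4
        rwa [nsmul_eq_mul]
    _ = 1 := by
        rw [ENNReal.tsum_mul_left, ENNReal.tsum_geometric, ENNReal.one_sub_inv_two, inv_inv,
          ENNReal.inv_mul_cancel (by simp) (by simp)]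

instance (θ : ∀ k, κ k → Bool) : IsProbabilityMeasure (GG θ) :=
  ⟨by simp [GG, Gam_univ θ, add_tsub_cancel_of_le (Gam_le _)]⟩

theorem GG_ae (θ : ∀ k, κ k → Bool) : ∀ᵐ y ∂GG θ, ∀ i, 1 / 2 ≤ y i ∧ y i ≤ 2 := by
  rw [GG, ae_add_measure_iff, Gam, Measure.ae_sum_iff]
  refine ⟨fun a => Measure.ae_smul_measure
    (bm_ae (tt_pos _).le _ (cc_bd _ _ _).2.2.1 (cc_bd _ _ _).2.2.2) _,
    Measure.ae_smul_measure ?_ _⟩
  rw [ae_dirac_eq]
  exact fun i => by norm_num

theorem lsmu_GG (θ : ∀ k, κ k → Bool) (x : Fin 3 → ℝ) : lsmu (GG θ) x =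
    ∑' a : Σ k, κ k × Bool, ENNReal.ofReal (ww a.1) *
      lsmu (bm (cc a.1 a.2.1 a.2.2) (tt a.1) (θ a.1 a.2.1 == a.2.2)) x +
    (1 - Gam (fun _ _ => true) univ) * lsmu (Measure.dirac fun _ => 1 / 2) x := by
  simp only [lsmu, GG, lintegral_add_measure, lintegral_smul_measure, smul_eq_mul]
  rw [Gam, lintegral_sum_measure]
  simp only [lintegral_smul_measure, smul_eq_mul]

theorem smu_GG_box (θ : ∀ k, κ k → Bool) (k : ℕ) (p : κ k) (b : Bool) (x : Fin 3 → ℝ)
    (hx : x ∈ box (cc k p b) (tt k)) : smu (GG θ) x = if θ k p = b then ww k else 0 := by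
  have h1 : lsmu (Measure.dirac fun _ => 1 / 2) x = 0 := by
    rw [lsmu, lintegral_dirac, indicator_of_notMem]
    intro h
    have h2 : 0 ≤ 1 / (LL k : ℝ) := by positivity
    linarith [(h 0).2, (hx 0 (mem_univ _)).1, (cc_bd k p b).1]
  rw [smu_eq, lsmu_GG, h1, mul_zero, add_zero, tsum_eq_single ⟨k, p, b⟩ fun a ha => by
    rw [lsmu_bm_zero (cc_pos _ _ _) (tt_pos _).le _ fun h => ha (sep hx h).symm, mul_zero],
    lsmu_bm_of_mem (cc_pos _ _ _) (tt_pos _).le _ hx]
  have h3 : 0 ≤ ww k := by unfold ww; positivity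
  by_cases h : θ k p = b <;> simp [h, h3]

theorem smu_GG_loc (θ θ' : ∀ k, κ k → Bool) (x : Fin 3 → ℝ)
    (h : ∀ k p, θ k p ≠ θ' k p → ∀ b, x ∉ box (cc k p b) (tt k)) :
    smu (GG θ) x = smu (GG θ') x := by
  rw [smu_eq, smu_eq, lsmu_GG, lsmu_GG]
  congr! 4 with a
  by_cases ha : θ a.1 a.2.1 = θ' a.1 a.2.1
  · rw [ha]
  · rw [lsmu_bm_of_notMem (cc_pos _ _ _) (tt_pos _).le _ _ (h _ _ ha _)]

theorem smu_GG_le (θ : ∀ k, κ k → Bool) (x : Fin 3 → ℝ) : smu (GG θ) x ≤ 8 := by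
  rw [smu_eq]
  refine ENNReal.toReal_le_of_le_ofReal (by norm_num) ?_
  rw [← mul_one (ENNReal.ofReal 8), ← measure_univ (μ := GG θ), ← lintegral_const]
  refine lintegral_mono_ae ((GG_ae θ).mono fun y hy => (indicator_le_self _ _ y).trans ?_)
  refine ENNReal.ofReal_le_ofReal (inv_le_of_inv_le₀ (by norm_num) ?_)
  exact le_trans (by simp; norm_num)
    (Finset.prod_le_prod (f := fun _ => (1 / 2 : ℝ)) (by simp) fun i _ => (hy i).1)

theorem smu_GG_supp (θ : ∀ k, κ k → Bool) (x : Fin 3 → ℝ) (hx : ∃ i, x i ∉ Icc (0 : ℝ) 2) :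
    smu (GG θ) x = 0 := by
  obtain ⟨i, hi⟩ := hx
  rw [smu_eq, lsmu, lintegral_congr_ae (g := fun _ => 0) ((GG_ae θ).mono fun y hy =>
    indicator_of_notMem (fun h => hi ⟨(h i).1.le, (h i).2.trans (hy i).2⟩) _)]
  simp

theorem lower {g : ∀ m, (Fin m → Fin 3 → ℝ) → (Fin 3 → ℝ) → ℝ} (hg : ∀ m y, Integrable (g m y)) :
    ∃ θ, ∀ k, 1 / 16 ≤ sample (smu (GG θ)) (256 * LL k ^ 54)
      {y | 1 / (256 * (LL k : ℝ) ^ 17) ≤ hellinger (g _ y) (smu (GG θ))} := by
  have hw : ∀ k, ww k * tt k ^ 3 = 1 / (512 * (LL k : ℝ) ^ 54) := fun k => by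
    have := LL_big k
    unfold ww tt
    field_simp
    norm_num
  obtain ⟨θ, hθ⟩ := multi volume (κ := κ) (f := fun θ => smu (GG θ))
    (fun θ => measurable_smu _) (fun θ => smu_nonneg _)
    (fun θ => lintegral_smu _ ((GG_ae θ).mono fun y hy i => lt_of_lt_of_le (by norm_num) (hy i).1))
    (B := fun k p b => box (cc k p b) (tt k))
    (fun k p b => MeasurableSet.univ_pi fun i => measurableSet_Ioc)
    (fun k p q hpq => disjoint_left.2 fun x hx hx' => hpq (by
      simpa using sep hx fun i => (hx' i (mem_univ i)).2))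
    (w := ww) (τ := fun k => tt k ^ 3) (fun k => by unfold ww; positivity)
    (fun k => (pow_pos (tt_pos k) 3).le)
    (fun k p b => by simp [box, Real.volume_pi_Ioc, ENNReal.ofReal_pow (tt_pos k).le])
    smu_GG_box smu_GG_loc (n := fun k => 256 * LL k ^ 54)
    (fun k => by
      have := LL_big k
      rw [hw]
      push_cast
      field_simp
      norm_num)
    (fun k l hkl => by
      have h1 := LL_big k
      have h2 := LL_big l
      have h3 := LL_ge l
      have h4 : (LL k : ℝ) ^ 54 ≤ LL l ^ 27 := by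
        rw [show 54 = 2 * 27 by norm_num, pow_mul]
        gcongr
        exact LL_sq hkl
      have h5 : (2 : ℝ) ^ (l + 5) ≤ LL l ^ 7 :=
        ((pow_le_pow_right₀ one_le_two (by omega)).trans h3).trans
          (le_self_pow₀ (by linarith) (by norm_num))
      rw [hw, one_div_pow]
      simp only [Fintype.card_prod, Fintype.card_fin]
      push_cast
      field_simp
      nlinarith [mul_le_mul h4 h5 (by positivity) (by positivity),
        pow_pos (by linarith : (0 : ℝ) < LL l) 34])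
    hg
  refine ⟨θ, fun k => (hθ k).trans (measure_mono fun y hy => ?_)⟩
  have h1 := LL_big k
  refine Real.le_sqrt_of_sq_le (le_trans ?_ (mul_le_mul_of_nonneg_left hy (by norm_num)))
  rw [hw]
  simp only [Fintype.card_prod, Fintype.card_fin]
  push_cast
  field_simp
  norm_num

theorem rate (C γ : ℝ) (N : ℕ) : ∃ k, N ≤ 256 * LL k ^ 54 ∧
    C * (((256 * LL k ^ 54 : ℕ) : ℝ) ^ (-(1 / 3) : ℝ) * Real.log (256 * LL k ^ 54 : ℕ) ^ γ) <
      1 / (256 * (LL k : ℝ) ^ 17) := by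
  have h1 : Tendsto (fun k => 256 * LL k ^ 54) atTop atTop := by
    refine tendsto_atTop_mono (fun k => ?_) tendsto_id
    have h : (k : ℝ) ≤ 256 * LL k ^ 54 := by
      have h1 : (k : ℝ) ≤ 2 ^ k := by exact_mod_cast k.lt_two_pow_self.le
      have h2 := LL_ge k
      have h3 := LL_big k
      have h4 : (LL k : ℝ) ≤ LL k ^ 54 := le_self_pow₀ (by linarith) (by norm_num)
      rw [pow_add] at h2
      nlinarith [pow_pos (two_pos (α := ℝ)) k]
    exact_mod_cast h
  obtain ⟨k, hk, hk'⟩ := ((h1.eventually_ge_atTop N).and ((tendsto_natCast_atTop_atTop.comp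
    h1).eventually ((isLittleO_log_rpow_rpow_atTop γ (s := 1 / 54) (by norm_num)).bound
      (c := 1 / (1024 * (|C| + 1))) (by positivity)))).exists
  refine ⟨k, hk, ?_⟩
  have hL := LL_big k
  simp only [Function.comp] at hk'
  set n : ℝ := ((256 * LL k ^ 54 : ℕ) : ℝ) with hn
  have hn' : n = 256 * (LL k : ℝ) ^ 54 := by simp [hn]
  have h54 : 0 < (LL k : ℝ) ^ 54 := by positivity
  have a1 : n ^ (-(1 / 3) : ℝ) ≤ 1 / (LL k : ℝ) ^ 18 := by
    refine (Real.rpow_le_rpow_of_nonpos h54 (by linarith) (by norm_num)).trans (le_of_eq ?_)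
    rw [← Real.rpow_natCast, ← Real.rpow_mul (by linarith), one_div (_ ^ 18), ← Real.rpow_natCast,
      ← Real.rpow_neg (by linarith)]
    norm_num
  have a2 : n ^ (1 / 54 : ℝ) ≤ 2 * LL k := by
    refine (Real.rpow_le_rpow (by positivity) (show n ≤ (2 * LL k) ^ 54 by
      rw [mul_pow]; nlinarith) (by norm_num)).trans (le_of_eq ?_)
    rw [← Real.rpow_natCast, ← Real.rpow_mul (by linarith)]
    norm_num
  rw [Real.norm_of_nonneg (show 0 ≤ n ^ (1 / 54 : ℝ) by positivity), Real.norm_eq_abs] at hk'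
  calc _ ≤ |C| * (n ^ (-(1 / 3) : ℝ) * |Real.log n ^ γ|) := by
        refine (le_abs_self _).trans (le_of_eq ?_)
        rw [abs_mul, abs_mul, abs_of_nonneg (show 0 ≤ n ^ (-(1 / 3) : ℝ) by positivity)]
    _ ≤ (|C| + 1) * (1 / (LL k : ℝ) ^ 18 * (1 / (1024 * (|C| + 1)) * (2 * LL k))) := by
        gcongr
        · linarith
        · exact hk'.trans (by gcongr)
    _ < _ := by
        field_simp
        norm_num

end Pool.Agent.P.MP_faec4e_pr
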