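import Mathlib

/-! Scale mixtures of uniform densities. -/

namespace Pool.Agent.P.MP_faec4e_pr

open MeasureTheory

/-- The density `f_G`. -/
noncomputable def smu {d : ℕ} (G : Measure (Fin d → ℝ)) (x : Fin d → ℝ) : ℝ :=
  ∫ y in {y | ∀ i, 0 < x i ∧ x i ≤ y i}, (∏ i, y i)⁻¹ ∂G

/-- The class `F_SMU(d)`. -/
def IsSMU {d : ℕ} (f : (Fin d → ℝ) → ℝ) : Prop :=
  ∃ G : Measure (Fin d → ℝ), IsProbabilityMeasure G ∧ (∀ᵐ y ∂G, ∀ i, 0 < y i) ∧ f = smu G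

/-- The Hellinger distance. -/
noncomputable def hellinger {d : ℕ} (f g : (Fin d → ℝ) → ℝ) : ℝ :=
  Real.sqrt (1 / 2 * ∫ x, (Real.sqrt (f x) - Real.sqrt (g x)) ^ 2)

/-- The law of an i.i.d. sample of size `n` with density `f`. -/
noncomputable def sample {d : ℕ} (f : (Fin d → ℝ) → ℝ) (n : ℕ) : Measure (Fin n → Fin d → ℝ) :=
  Measure.pi fun _ : Fin n => volume.withDensity fun x => ENNReal.ofReal (f x)

/-- `Z_n = O_p(a_n)`. -/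
def IsBigOp {d : ℕ} (P : ∀ n : ℕ, Measure (Fin n → Fin d → ℝ))
    (Z : ∀ n : ℕ, (Fin n → Fin d → ℝ) → ℝ) (a : ℕ → ℝ) : Prop :=
  ∀ ε : ℝ, 0 < ε → ∃ (C : ℝ) (N : ℕ), ∀ n : ℕ, N ≤ n →
    P n {X | C * a n < |Z n X|} < ENNReal.ofReal ε

end Pool.Agent.P.MP_faec4e_pr
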